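import Pool.Agent.Helper87.VM.Lib

set_option autoImplicit false

namespace Pool.Agent.Helper87.VM

open MvPolynomial

theorem clo_coeff {R : Type} [CommRing R] {κ : Type} [Fintype κ] (z : κ → R) {k : ℕ}
    (hk : k ≤ Fintype.card κ) :
    (∏ i, (Polynomial.X - Polynomial.C (z i))).coeff k =
      (-1) ^ (Fintype.card κ - k) * (Finset.univ.val.map z).esymm (Fintype.card κ - k) := by
  have hc : Multiset.card (Finset.univ.val.map z) = Fintype.card κ := by
    rw [Multiset.card_map]; rfl
  have h := Multiset.prod_X_sub_C_coeff (Finset.univ.val.map z) (k := k) (by rw [hc]; exact hk)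
  rw [hc, Multiset.map_map] at h
  exact h

theorem clo_mem {κ : Type} [Fintype κ] (z : κ → ℂ) :
    z ∈ Bc κ ↔ ∀ k, 2 ≤ k → k < Fintype.card κ →
      (∏ i, (Polynomial.X - Polynomial.C (z i))).coeff k = 0 := by
  have hev : ∀ j, eval z (esymm κ ℂ j) = (Finset.univ.val.map z).esymm j := by
    intro j
    rw [← aeval_eq_eval, aeval_esymm_eq_multiset_esymm]
  constructor
  · intro h k h2 hk
    have h1 := h (Fintype.card κ - k) (by omega) (by omega)
    rw [clo_coeff z hk.le, ← hev, h1, mul_zero]
  · intro h j h1 h2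
    have h3 := h (Fintype.card κ - j) (by omega) (by omega)
    rw [clo_coeff z (by omega), ← hev, Nat.sub_sub_self (by omega)] at h3
    rcases mul_eq_zero.1 h3 with h4 | h4
    · exact absurd h4 (pow_ne_zero _ (by norm_num))
    · exact h4

theorem clo_form {κ : Type} [Fintype κ] (hM : 3 ≤ Fintype.card κ) {z : κ → ℂ} (hz : z ∈ Bc κ) :
    (∏ i, (Polynomial.X - Polynomial.C (z i))) = Polynomial.X ^ Fintype.card κ +
      (Polynomial.C ((∏ i, (Polynomial.X - Polynomial.C (z i))).coeff 1) * Polynomial.X +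
      Polynomial.C ((∏ i, (Polynomial.X - Polynomial.C (z i))).coeff 0)) := by
  have hmon : (∏ i, (Polynomial.X - Polynomial.C (z i))).Monic :=
    Polynomial.monic_prod_of_monic _ _ fun i _ => Polynomial.monic_X_sub_C _
  have hdeg : (∏ i, (Polynomial.X - Polynomial.C (z i))).natDegree = Fintype.card κ := by
    rw [Polynomial.natDegree_prod_of_monic _ _ fun i _ => Polynomial.monic_X_sub_C _]
    simp
  generalize hP : (∏ i, (Polynomial.X - Polynomial.C (z i))) = P at *
  have hco : ∀ k, 2 ≤ k → k < Fintype.card κ → P.coeff k = 0 := by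
    rw [← hP]; exact (clo_mem z).1 hz
  ext k
  rw [Polynomial.coeff_add, Polynomial.coeff_X_pow, Polynomial.coeff_add,
    Polynomial.coeff_C_mul, Polynomial.coeff_X, Polynomial.coeff_C]
  rcases Nat.lt_or_ge k 2 with hk | hk
  · have h0 : k ≠ Fintype.card κ := by omega
    rw [if_neg h0, zero_add]
    obtain rfl | rfl : k = 0 ∨ k = 1 := by omega
    · simp
    · simp
  · have h1 : (1 : ℕ) ≠ k := by omega
    have h2 : k ≠ 0 := by omega
    rw [if_neg h1, if_neg h2, mul_zero, add_zero, add_zero]
    rcases lt_trichotomy k (Fintype.card κ) with h3 | h3 | h3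
    · rw [if_neg h3.ne]; exact hco k hk h3
    · rw [if_pos h3, h3, ← hdeg]; exact hmon
    · rw [if_neg h3.ne']; exact Polynomial.coeff_eq_zero_of_natDegree_lt (by omega)

theorem clo_jet {κ : Type} [Fintype κ] (β : κ → PowerSeries ℂ) (z v : κ → ℂ)
    (hz : ∀ i, PowerSeries.constantCoeff (β i) = z i) (hv : ∀ i, PowerSeries.coeff 1 (β i) = v i)
    (P : MvPolynomial κ ℂ) :
    PowerSeries.constantCoeff (aeval β P) = eval z P ∧
      PowerSeries.coeff 1 (aeval β P) = dpol P z v := by
  induction P using MvPolynomial.induction_on with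
  | C a =>
    rw [aeval_C, eval_C, dpol_C]
    refine ⟨?_, ?_⟩
    · exact PowerSeries.constantCoeff_C a
    · change PowerSeries.coeff 1 (PowerSeries.C a) = 0
      rw [PowerSeries.coeff_C]; simp
  | add p q hp hq =>
    rw [map_add, map_add, map_add, map_add, dpol_add, hp.1, hp.2, hq.1, hq.2]
    exact ⟨rfl, rfl⟩
  | mul_X p i hp =>
    rw [map_mul, map_mul, map_mul, aeval_X, eval_X, dpol_mul, dpol_X, eval_X, hp.1, hz i]
    refine ⟨rfl, ?_⟩
    rw [PowerSeries.coeff_one_mul, hp.1, hp.2, hz, hv]
    ring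

theorem clo_tan (hH : ST_HEN) {κ : Type} [Fintype κ] (hM : 3 ≤ Fintype.card κ) {z : κ → ℂ}
    (hz : z ∈ Bc κ) (hinj : Function.Injective z) (p q : ℂ) :
    ∃ v ∈ tsp (Bc κ) z, ∀ i, ((Fintype.card κ : ℂ) * z i ^ (Fintype.card κ - 1) +
      (∏ i, (Polynomial.X - Polynomial.C (z i))).coeff 1) * v i = -(p * z i + q) := by
  have hform := clo_form hM hz
  set M := Fintype.card κ with hMdef
  generalize hA : (∏ i, (Polynomial.X - Polynomial.C (z i))).coeff 1 = A at *
  generalize hC : (∏ i, (Polynomial.X - Polynomial.C (z i))).coeff 0 = B at *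
  let e : Fin M ≃ κ := (Fintype.equivFin κ).symm
  let a1 : PowerSeries ℂ := PowerSeries.C A + PowerSeries.C p * PowerSeries.X
  let a0 : PowerSeries ℂ := PowerSeries.C B + PowerSeries.C q * PowerSeries.X
  let g : Polynomial (PowerSeries ℂ) :=
    Polynomial.X ^ M + (Polynomial.C a1 * Polynomial.X + Polynomial.C a0)
  have hmon : g.Monic := by
    apply Polynomial.monic_X_pow_add
    refine lt_of_le_of_lt (Polynomial.degree_linear_le) ?_
    exact_mod_cast (by omega : 1 < M)
  have hmap : g.map (PowerSeries.constantCoeff (R := ℂ)) =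
      ∏ i : Fin M, (Polynomial.X - Polynomial.C (z (e i))) := by
    rw [Equiv.prod_comp e (fun i => Polynomial.X - Polynomial.C (z i)), hform]
    simp [g, a1, a0]
  obtain ⟨b, hb0, hb⟩ := hH ℂ M g (fun i => z (e i)) hmon (hinj.comp e.injective) hmap
  let β : κ → PowerSeries ℂ := fun i => b (e.symm i)
  have hg : g = ∏ i : κ, (Polynomial.X - Polynomial.C (β i)) := by
    rw [hb, ← Equiv.prod_comp e (fun i => Polynomial.X - Polynomial.C (β i))]
    refine Finset.prod_congr rfl fun i _ => ?_
    change _ = Polynomial.X - Polynomial.C (b (e.symm (e i)))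
    rw [Equiv.symm_apply_apply]
  have hβ0 : ∀ i, PowerSeries.constantCoeff (β i) = z i := by
    intro i
    change PowerSeries.constantCoeff (b (e.symm i)) = z i
    rw [hb0, Equiv.apply_symm_apply]
  let v : κ → ℂ := fun i => PowerSeries.coeff 1 (β i)
  refine ⟨v, ?_, ?_⟩
  · -- tangent vector
    intro P hP
    let I : Ideal (MvPolynomial κ ℂ) :=
      Ideal.span {F | ∃ j, 1 ≤ j ∧ j + 2 ≤ Fintype.card κ ∧ F = esymm κ ℂ j}
    have hzl : zeroLocus ℂ I = Bc κ := by
      ext x
      constructor
      · intro hx j h1 h2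
        have := hx (esymm κ ℂ j) (Ideal.subset_span ⟨j, h1, h2, rfl⟩)
        rwa [aeval_eq_eval] at this
      · intro hx F hF
        rw [aeval_eq_eval]
        have hle : I ≤ RingHom.ker (eval x) := by
          refine Ideal.span_le.2 ?_
          rintro F ⟨j, h1, h2, rfl⟩
          exact hx j h1 h2
        exact hle hF
    rw [← hzl, vanishingIdeal_zeroLocus_eq_radical] at hP
    obtain ⟨n, hn⟩ := hP
    have hle : I ≤ RingHom.ker (aeval β : MvPolynomial κ ℂ →ₐ[ℂ] PowerSeries ℂ).toRingHom := by
      refine Ideal.span_le.2 ?_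
      rintro F ⟨j, h1, h2, rfl⟩
      change aeval β (esymm κ ℂ j) = 0
      rw [aeval_esymm_eq_multiset_esymm]
      have h3 : g.coeff (M - j) = 0 := by
        have h4 : M - j ≠ M := by omega
        have h5 : (1 : ℕ) ≠ M - j := by omega
        have h6 : M - j ≠ 0 := by omega
        rw [Polynomial.coeff_add, Polynomial.coeff_X_pow, Polynomial.coeff_add,
          Polynomial.coeff_C_mul, Polynomial.coeff_X, Polynomial.coeff_C, if_neg h4, if_neg h5,
          if_neg h6, mul_zero, add_zero, add_zero]
      rw [hg, clo_coeff β (by omega), ← hMdef, Nat.sub_sub_self (by omega)] at h3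
      rcases mul_eq_zero.1 h3 with h4 | h4
      · exact absurd h4 (pow_ne_zero _ (neg_ne_zero.2 one_ne_zero))
      · exact h4
    have h0 : aeval β P = 0 := by
      have h1 : aeval β (P ^ n) = 0 := hle hn
      rw [map_pow] at h1
      exact eq_zero_of_pow_eq_zero h1
    have h2 := (clo_jet β z v hβ0 (fun _ => rfl) P).2
    rw [h0, map_zero] at h2
    exact h2.symm
  · intro i
    have hroot : g.eval (β i) = 0 := by
      rw [hg, Polynomial.eval_prod]
      exact Finset.prod_eq_zero (Finset.mem_univ i) (by simp)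
    have hroot' : β i ^ M + (a1 * β i + a0) = 0 := by
      simpa [g] using hroot
    have h1 := congrArg (PowerSeries.coeff 1) hroot'
    rw [map_add, map_add, PowerSeries.coeff_one_pow, PowerSeries.coeff_one_mul, hβ0, map_zero] at h1
    have ha1 : PowerSeries.coeff 1 a1 = p := by
      simp [a1, PowerSeries.coeff_C]
    have ha1' : PowerSeries.constantCoeff a1 = A := by
      simp [a1]
    have ha0 : PowerSeries.coeff 1 a0 = q := by
      simp [a0, PowerSeries.coeff_C]
    rw [ha1, ha1', ha0] at h1
    change ((M : ℂ) * z i ^ (M - 1) + A) * PowerSeries.coeff 1 (β i) = -(p * z i + q)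
    linear_combination h1

theorem clo_roots (κ : Type) [Fintype κ] (hM : 3 ≤ Fintype.card κ) :
    ∃ z ∈ Bc κ, Function.Injective z := by
  classical
  have hpos : 0 < Fintype.card κ := by omega
  have hne : Fintype.card κ ≠ 0 := by omega
  have hprim := Complex.isPrimitiveRoot_exp (Fintype.card κ) hne
  have hcard : (Polynomial.nthRootsFinset (Fintype.card κ) (1 : ℂ)).card = Fintype.card κ :=
    hprim.card_nthRootsFinset
  have hc : Fintype.card κ = Fintype.card {x // x ∈ Polynomial.nthRootsFinset (Fintype.card κ) (1 : ℂ)} := by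
    rw [Fintype.card_coe, hcard]
  let φ := Fintype.equivOfCardEq hc
  refine ⟨fun i => (φ i).1, ?_, fun i j h => φ.injective (Subtype.ext h)⟩
  rw [clo_mem]
  intro k h2 hk
  have hprod : (∏ i, (Polynomial.X - Polynomial.C ((φ i).1))) =
      Polynomial.X ^ (Fintype.card κ) - 1 := by
    rw [Equiv.prod_comp φ (fun x => Polynomial.X - Polynomial.C x.1),
      Polynomial.X_pow_sub_one_eq_prod hpos hprim]
    exact (Finset.prod_coe_sort (Polynomial.nthRootsFinset (Fintype.card κ) (1 : ℂ))
      (fun x => Polynomial.X - Polynomial.C x))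
  rw [hprod, Polynomial.coeff_sub, Polynomial.coeff_X_pow, if_neg hk.ne, Polynomial.coeff_one,
    if_neg (by omega), sub_zero]

theorem st_CLO (hH : ST_HEN) (hI : ST_CIRR) (hL : ST_LB) : ST_CLO := by
  intro κ _ hM
  classical
  let h : MvPolynomial κ ℂ := ∏ i, ∏ j ∈ Finset.univ.filter (fun j => j ≠ i), (X i - X j)
  have hh : ∀ z : κ → ℂ, eval z h ≠ 0 ↔ Function.Injective z := by
    intro z
    simp only [h, map_prod, map_sub, eval_X, Finset.prod_ne_zero_iff, Finset.mem_filter,
      Finset.mem_univ, true_and, forall_true_left, sub_ne_zero]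
    constructor
    · intro H i j hij
      by_contra hne
      exact H i j (fun e => hne e.symm) hij
    · intro H i j hne hij
      exact hne (H hij).symm
  obtain ⟨z0, hz0, hz0i⟩ := clo_roots κ hM
  refine hL κ (Bc κ) 2 h (hI κ hM) ⟨z0, hz0, (hh z0).2 hz0i⟩ ?_
  intro z hz hzh
  have hinj := (hh z).1 hzh
  obtain ⟨v, hv, hv1⟩ := clo_tan hH hM hz hinj 1 0
  obtain ⟨w, hw, hw1⟩ := clo_tan hH hM hz hinj 0 1
  have hli : LinearIndependent ℂ ![(⟨v, hv⟩ : tsp (Bc κ) z), ⟨w, hw⟩] := by
    rw [LinearIndependent.pair_iff]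
    intro s t hst
    have h1 : ∀ i, s * v i + t * w i = 0 := by
      intro i
      have := congrArg (fun u : tsp (Bc κ) z => u.1 i) hst
      exact this
    have h2 : ∀ i, s * z i + t = 0 := by
      intro i
      have e1 := hv1 i
      have e2 := hw1 i
      have e3 := h1 i
      linear_combination (-(Fintype.card κ : ℂ) * z i ^ (Fintype.card κ - 1) -
        (∏ i, (Polynomial.X - Polynomial.C (z i))).coeff 1) * e3 + s * e1 + t * e2
    obtain ⟨i, j, hij⟩ := Fintype.exists_pair_of_one_lt_card (show 1 < Fintype.card κ by omega)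
    have h3 : s * (z i - z j) = 0 := by linear_combination h2 i - h2 j
    rcases mul_eq_zero.1 h3 with h4 | h4
    · refine ⟨h4, ?_⟩
      have := h2 i
      rw [h4, zero_mul, zero_add] at this
      exact this
    · exact absurd (hinj (sub_eq_zero.1 h4)) hij
  have := hli.fintype_card_le_finrank
  simpa using this

end Pool.Agent.Helper87.VM
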